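import Mathlib

set_option autoImplicit false

namespace Pool.Agent.Results.MP_7100ec_nt.Drop

noncomputable def G (y : ℝ) : ℝ := Int.fract y⁻¹

def IsPQ (y : ℝ) (n : ℕ) (a : ℤ) : Prop :=
  1 ≤ n ∧ G^[n - 1] y ≠ 0 ∧ a = ⌊(G^[n - 1] y)⁻¹⌋

theorem result :
    ∃ (x : ℝ) (c₁ b₁ c₂ b₂ : ℤ), 0 < x ∧ x ≤ 1 ∧ IsPQ x 1 (c₁ - 1) ∧
      IsPQ (x - 1 / c₁) 1 b₁ ∧ IsPQ (x - 1 / b₁) 2 (c₂ - 1) ∧
      IsPQ (x - 1 / (c₁ + 1 / c₂)) 2 b₂ ∧ b₂ < b₁ := by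
  have g1 : G (75 / 377 - 1 / (30 : ℤ)) = 72 / 1873 := by
    rw [G, Int.fract_eq_iff]
    exact ⟨by norm_num, by norm_num, 6, by norm_num⟩
  have g2 : G (75 / 377 - 1 / ((6 : ℤ) + 1 / (27 : ℤ))) = 71 / 2046 := by
    rw [G, Int.fract_eq_iff]
    exact ⟨by norm_num, by norm_num, 30, by norm_num⟩
  refine ⟨75 / 377, 6, 30, 27, 28, by norm_num, by norm_num, ⟨le_rfl, by norm_num, ?_⟩,
    ⟨le_rfl, by norm_num, ?_⟩, ⟨by norm_num, ?_, ?_⟩, ⟨by norm_num, ?_, ?_⟩, by norm_num⟩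
  · rw [eq_comm, Int.floor_eq_iff]
    norm_num
  · rw [eq_comm, Int.floor_eq_iff]
    norm_num
  · rw [show 2 - 1 = 1 from rfl, Function.iterate_one, g1]
    norm_num
  · rw [show 2 - 1 = 1 from rfl, Function.iterate_one, g1, eq_comm, Int.floor_eq_iff]
    norm_num
  · rw [show 2 - 1 = 1 from rfl, Function.iterate_one, g2]
    norm_num
  · rw [show 2 - 1 = 1 from rfl, Function.iterate_one, g2, eq_comm, Int.floor_eq_iff]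
    norm_num

end Pool.Agent.Results.MP_7100ec_nt.Drop
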